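import Pool.Agent.P.MP_27be11_an.Main

open MeasureTheory

/-- Every admissible, locally compact, sigma-compact Hausdorff right topological group carries a
nonzero Radon measure invariant under all right translations. -/
theorem Pool.Agent.Results.MP_27be11_an.HaarExists.result (G : Type*) [Group G]
    [TopologicalSpace G] [T2Space G] [LocallyCompactSpace G] [SigmaCompactSpace G]
    [MeasurableSpace G] [BorelSpace G]
    (hR : ∀ g : G, Continuous fun x : G => x * g)
    (hΛ : Dense {x : G | Continuous fun y : G => x * y}) :
    ∃ μ : Measure G, μ ≠ 0 ∧ μ.Regular ∧ μ.InnerRegular ∧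
      ∀ E : Set G, MeasurableSet E → ∀ g : G, μ ((fun x => x * g) '' E) = μ E :=
  haveI : Pool.Agent.P.MP_27be11_an.Adm G := ⟨hR, hΛ⟩
  Pool.Agent.P.MP_27be11_an.exists_haar
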